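import Pool.Agent.Helper96_LAX.Stmts

/-!
# LAX, module LFO: an acyclic partial injection is a linear forest

The graph part follows the proof of module LINF of squad NIB (helper41).
-/

set_option autoImplicit false

namespace Pool.Agent.LAX.H3

open Pool.Agent.LAX Pool.Agent.Helper14_LA

theorem lfo : LfoStmt := by
  intro V _ K hPI hAc
  classical
  let rk : V → ℕ := fun v => ({w | Relation.TransGen (fun a b => (a, b) ∈ K) w v} : Set V).ncard
  have hrk : ∀ u v, (u, v) ∈ K → rk u < rk v := by
    intro u v huv
    refine Set.ncard_lt_ncard ⟨fun w hw => ?_, fun hsub => ?_⟩ (Set.toFinite _)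
    · exact Relation.TransGen.tail hw huv
    · exact hAc u (hsub (Relation.TransGen.single huv))
  have hF : ∀ u v, (SimpleGraph.fromRel (fun u v => (u, v) ∈ K)).Adj u v → (u, v) ∈ K ∨ (v, u) ∈ K := by
    intro u v h
    rw [SimpleGraph.fromRel_adj] at h
    exact h.2
  constructor
  · intro v c hc
    obtain ⟨w, hw, hmax⟩ := Finset.exists_max_image c.support.toFinset rk ⟨v, by simp⟩
    rw [List.mem_toFinset] at hw
    have hmax' : ∀ x ∈ c.support, rk x ≤ rk w := fun x hx => hmax x (List.mem_toFinset.2 hx)
    have hc' := hc.rotate hw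
    set c' := c.rotate w hw with hc'def
    have hnil : ¬ c'.Nil := hc'.not_nil
    have hsup : ∀ x ∈ c'.support, x ∈ c.support := by
      intro x hx
      exact (SimpleGraph.Walk.mem_support_rotate_iff c w hw).1 hx
    have hin : ∀ x, (SimpleGraph.fromRel (fun u v => (u, v) ∈ K)).Adj w x → x ∈ c'.support →
        (x, w) ∈ K := by
      intro x hx hxs
      rcases hF w x hx with h | h
      · have h1 := hrk w x h
        have h2 := hmax' x (hsup x hxs)
        omega
      · exact h
    have h1 := hin _ (c'.adj_snd hnil) (c'.getVert_mem_support _)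
    have h2 := hin _ (c'.adj_penultimate hnil).symm (c'.getVert_mem_support _)
    exact hc'.snd_ne_penultimate (hPI.2 _ _ _ h1 h2)
  · intro v
    have hsub : (SimpleGraph.fromRel (fun u v => (u, v) ∈ K)).neighborSet v ⊆
        {w | (v, w) ∈ K} ∪ {w | (w, v) ∈ K} := by
      intro w hw
      exact hF v w hw
    have h1 : ({w | (v, w) ∈ K} : Set V).ncard ≤ 1 := by
      rw [Set.ncard_le_one (Set.toFinite _)]
      intro a ha b hb
      exact hPI.1 v a b ha hb
    have h2 : ({w | (w, v) ∈ K} : Set V).ncard ≤ 1 := by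
      rw [Set.ncard_le_one (Set.toFinite _)]
      intro a ha b hb
      exact hPI.2 a b v ha hb
    calc ((SimpleGraph.fromRel (fun u v => (u, v) ∈ K)).neighborSet v).ncard
        ≤ ({w | (v, w) ∈ K} ∪ {w | (w, v) ∈ K} : Set V).ncard :=
          Set.ncard_le_ncard hsub (Set.toFinite _)
      _ ≤ ({w | (v, w) ∈ K} : Set V).ncard + ({w | (w, v) ∈ K} : Set V).ncard :=
          Set.ncard_union_le _ _
      _ ≤ 2 := by omega

end Pool.Agent.LAX.H3
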